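import Pool.Agent.H33R3.Bom.Stmts

set_option autoImplicit false

/-!
# Task C5a of the project H33-BOM (helper33): derivative of the logarithm
-/

namespace Pool.Agent.H266R3.Bom

open Complex Metric Set Filter Topology Pool.Agent.H33R3.Bom

theorem tsum_eq_log (ζ w : ℂ) (h : ‖ζ‖ < ‖w‖) :
    ∑' k : ℕ, (if Odd k then 2 / (k : ℂ) * ζ ^ k else 0) * (w⁻¹) ^ k =
      log (1 + ζ * w⁻¹) - log (1 - ζ * w⁻¹) := by
  have hw : 0 < ‖w‖ := lt_of_le_of_lt (norm_nonneg _) h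
  have hx : ‖ζ * w⁻¹‖ < 1 := by
    rw [norm_mul, norm_inv, ← div_eq_mul_inv, div_lt_one hw]; exact h
  have h1 := Complex.hasSum_taylorSeries_log hx
  have h2 := Complex.hasSum_taylorSeries_neg_log hx
  have h3 := h1.add h2
  rw [sub_eq_add_neg]
  refine HasSum.tsum_eq ?_
  refine h3.congr_fun ?_ |> fun h => h
  intro k
  by_cases hk : Odd k
  · rw [if_pos hk, hk.add_one.neg_one_pow, mul_pow]
    ring
  · rw [if_neg hk]
    rw [Nat.not_odd_iff_even] at hk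
    rw [hk.add_one.neg_one_pow]
    ring

theorem alg1 (u v D1 D2 E1 E2 : ℂ) (h1 : D1 ≠ 0) (h2 : D2 ≠ 0) (h3 : E1 ≠ 0) (h4 : E2 ≠ 0) :
    (u * E2 + D2 - (v * E1 + D1) * (D2 * E2 / (D1 * E1))) / (D2 * E2) =
      u / D2 - v / D1 + (1 / E2 - 1 / E1) := by
  field_simp
  ring

theorem alg2 (z ζ : ℂ) (h1 : z + ζ ≠ 0) (h2 : z - ζ ≠ 0) :
    1 / (z - ζ) - 1 / (z + ζ) = 2 * ζ / (z ^ 2 - ζ ^ 2) := by
  have hzz' : z ^ 2 - ζ ^ 2 = (z + ζ) * (z - ζ) := by ring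
  rw [hzz', div_sub_div _ _ h2 h1, div_eq_div_iff (mul_ne_zero h2 h1) (mul_ne_zero h1 h2)]
  ring

theorem alg3 (a y y' ζ z D1 D2 : ℂ) (h1 : D1 ≠ 0) (h2 : D2 ≠ 0) (hz : z ≠ 0)
    (e1 : D1 = a * z - y * ζ) (e2 : D2 = a * z + y * ζ) :
    ((D1 / (ζ * z))⁻¹ + (D2 / (ζ * z))⁻¹) * ((y' * z - y) / z ^ 2) =
      (a + y' * ζ) / D2 - (a - y' * ζ) / D1 := by
  rw [inv_div, inv_div, div_add_div _ _ h1 h2, div_mul_div_comm, div_sub_div _ _ h2 h1,
    div_eq_div_iff (mul_ne_zero (mul_ne_zero h1 h2) (pow_ne_zero 2 hz)) (mul_ne_zero h2 h1)]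
  rw [e1, e2]
  ring

theorem taskC5a : TaskC5a := by
  intro Y hY ζ A hζ hA z hz hz1
  have hz0 : z ≠ 0 := by
    intro h; rw [h, norm_zero] at hz; exact absurd hz (not_lt.2 (norm_nonneg _))
  have hzb : z ∈ ball (0 : ℂ) 1 := by rw [mem_ball_zero_iff]; exact hz1
  have hζb : ζ ∈ ball (0 : ℂ) 1 := by rw [mem_ball_zero_iff]; exact hz.trans hz1
  have hnb : ball (0 : ℂ) 1 ∈ 𝓝 z := isOpen_ball.mem_nhds hzb
  have hzζ : z - ζ ≠ 0 := by
    intro h; rw [sub_eq_zero] at h; rw [h] at hz; exact lt_irrefl _ hz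
  have hzζ' : z + ζ ≠ 0 := by
    intro h
    have : z = -ζ := eq_neg_of_add_eq_zero_left h
    rw [this, norm_neg] at hz; exact lt_irrefl _ hz
  have hYd : HasDerivAt Y (deriv Y z) z := (hY.diff.differentiableAt hnb).hasDerivAt
  have hAd : HasDerivAt A (deriv A z) z := (hA.diff.differentiableAt hnb).hasDerivAt
  set a := Y ζ with ha
  set y := Y z with hy
  set y' := deriv Y z with hy'
  -- nonvanishing
  have hm : a * z - y * ζ ≠ 0 := by
    intro h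
    have h1 : Y z / z = Y ζ / ζ := by
      rw [div_eq_div_iff hz0 hζ]
      linear_combination -h
    have := hY.inj ⟨hzb, hz0⟩ ⟨hζb, hζ⟩ h1
    rw [this] at hz; exact lt_irrefl _ hz
  have heq := hA.eq z hzb
  have hP : (a * z - y * ζ) * (z + ζ) ≠ 0 := mul_ne_zero hm hzζ'
  have hQ : (a * z + y * ζ) * (z - ζ) ≠ 0 := by
    rw [← heq]; exact mul_ne_zero hP (exp_ne_zero _)
  have hp : a * z + y * ζ ≠ 0 := (mul_ne_zero_iff.1 hQ).1
  -- derivative of `A`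
  have hder : (a * z - y * ζ) * (z + ζ) * exp (A z) * deriv A z +
      ((a - y' * ζ) * (z + ζ) + (a * z - y * ζ)) * exp (A z) =
      (a + y' * ζ) * (z - ζ) + (a * z + y * ζ) := by
    have h1 : HasDerivAt (fun w => (a * w - Y w * ζ) * (w + ζ) * exp (A w))
        (((a * 1 - y' * ζ) * (z + ζ) + (a * z - y * ζ) * 1) * exp (A z) +
          (a * z - y * ζ) * (z + ζ) * (exp (A z) * deriv A z)) z := by
      have e1 : HasDerivAt (fun w => a * w - Y w * ζ) (a * 1 - y' * ζ) z :=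
        ((hasDerivAt_id z).const_mul a).sub (hYd.mul_const ζ)
      have e2 : HasDerivAt (fun w => w + ζ) 1 z := (hasDerivAt_id z).add_const ζ
      exact (e1.mul e2).mul hAd.cexp
    have h2 : HasDerivAt (fun w => (a * w + Y w * ζ) * (w - ζ))
        ((a * 1 + y' * ζ) * (z - ζ) + (a * z + y * ζ) * 1) z := by
      have e1 : HasDerivAt (fun w => a * w + Y w * ζ) (a * 1 + y' * ζ) z :=
        ((hasDerivAt_id z).const_mul a).add (hYd.mul_const ζ)
      have e2 : HasDerivAt (fun w => w - ζ) 1 z := (hasDerivAt_id z).sub_const ζ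
      exact e1.mul e2
    have h3 : (fun w => (a * w - Y w * ζ) * (w + ζ) * exp (A w)) =ᶠ[𝓝 z]
        (fun w => (a * w + Y w * ζ) * (w - ζ)) := by
      filter_upwards [hnb] with w hw
      exact hA.eq w hw
    have h4 := (h1.congr_of_eventuallyEq h3.symm).unique h2
    linear_combination h4
  have hzz : z ^ 2 - ζ ^ 2 ≠ 0 := by
    have : z ^ 2 - ζ ^ 2 = (z + ζ) * (z - ζ) := by ring
    rw [this]; exact mul_ne_zero hzζ' hzζ
  have hA' : deriv A z = (a + y' * ζ) / (a * z + y * ζ) - (a - y' * ζ) / (a * z - y * ζ) +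
      2 * ζ / (z ^ 2 - ζ ^ 2) := by
    have hE : exp (A z) = (a * z + y * ζ) * (z - ζ) / ((a * z - y * ζ) * (z + ζ)) := by
      rw [eq_div_iff hP, mul_comm]; exact heq
    have hE0 := exp_ne_zero (A z)
    have h5 : (a * z + y * ζ) * (z - ζ) * deriv A z =
        (a + y' * ζ) * (z - ζ) + (a * z + y * ζ) -
        ((a - y' * ζ) * (z + ζ) + (a * z - y * ζ)) * exp (A z) := by
      rw [← hder, heq]; ring
    rw [hE] at h5
    have h6 : deriv A z = ((a + y' * ζ) * (z - ζ) + (a * z + y * ζ) -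
        ((a - y' * ζ) * (z + ζ) + (a * z - y * ζ)) *
          ((a * z + y * ζ) * (z - ζ) / ((a * z - y * ζ) * (z + ζ)))) /
          ((a * z + y * ζ) * (z - ζ)) := by
      rw [eq_div_iff hQ, mul_comm]; exact h5
    rw [h6, alg1 _ _ _ _ _ _ hm hp hzζ' hzζ, alg2 z ζ hzζ' hzζ]
  -- the logarithmic series
  have hL : HasDerivAt (fun w : ℂ => ∑' k : ℕ, (if Odd k then 2 / (k : ℂ) * ζ ^ k else 0) *
      (w⁻¹) ^ k) (-(2 * ζ / (z ^ 2 - ζ ^ 2))) z := by
    have hx : ‖ζ * z⁻¹‖ < 1 := by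
      have hw : 0 < ‖z‖ := norm_pos_iff.2 hz0
      rw [norm_mul, norm_inv, ← div_eq_mul_inv, div_lt_one hw]; exact hz
    have hev : (fun w : ℂ => ∑' k : ℕ, (if Odd k then 2 / (k : ℂ) * ζ ^ k else 0) *
        (w⁻¹) ^ k) =ᶠ[𝓝 z] (fun w => log (1 + ζ * w⁻¹) - log (1 - ζ * w⁻¹)) := by
      have : {w : ℂ | ‖ζ‖ < ‖w‖} ∈ 𝓝 z := (isOpen_lt continuous_const continuous_norm).mem_nhds hz
      filter_upwards [this] with w hw
      exact tsum_eq_log ζ w hw
    refine HasDerivAt.congr_of_eventuallyEq ?_ hev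
    have hs1 : 1 + ζ * z⁻¹ ∈ slitPlane := by
      exact mem_slitPlane_of_norm_lt_one hx
    have hs2 : 1 - ζ * z⁻¹ ∈ slitPlane := by
      rw [sub_eq_add_neg]
      exact mem_slitPlane_of_norm_lt_one (by rw [norm_neg]; exact hx)
    have hi : HasDerivAt (fun w : ℂ => ζ * w⁻¹) (ζ * (-(z ^ 2)⁻¹)) z :=
      (hasDerivAt_inv hz0).const_mul ζ
    have d1 := (hi.const_add 1).clog hs1
    have d2 := (hi.const_sub 1).clog hs2
    have d3 : HasDerivAt (fun w : ℂ => log (1 + ζ * w⁻¹) - log (1 - ζ * w⁻¹)) _ z := d1.sub d2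
    refine d3.congr_deriv ?_
    have n1 : 1 + ζ * z⁻¹ ≠ 0 := slitPlane_ne_zero hs1
    have n2 : 1 - ζ * z⁻¹ ≠ 0 := slitPlane_ne_zero hs2
    have e1 : 1 + ζ * z⁻¹ = (z + ζ) / z := by field_simp
    have e2 : 1 - ζ * z⁻¹ = (z - ζ) / z := by field_simp
    have hzz' : z ^ 2 - ζ ^ 2 = (z + ζ) * (z - ζ) := by ring
    rw [e1, e2, ← alg2 z ζ hzζ' hzζ]
    field_simp
    ring
  have hsum := hAd.add hL
  have hG : deriv (fun z => Y z / z) z = (y' * z - y) / z ^ 2 := by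
    have : HasDerivAt (fun w => Y w / w) ((y' * z - y * 1) / z ^ 2) z :=
      hYd.div (hasDerivAt_id z) hz0
    rw [this.deriv, mul_one]
  have hval : ((Y ζ / ζ - Y z / z)⁻¹ + (Y ζ / ζ + Y z / z)⁻¹) * deriv (fun z => Y z / z) z =
      deriv A z + -(2 * ζ / (z ^ 2 - ζ ^ 2)) := by
    rw [hG, hA']
    have e1 : Y ζ / ζ - Y z / z = (a * z - y * ζ) / (ζ * z) := by
      rw [← ha, ← hy]; field_simp
    have e2 : Y ζ / ζ + Y z / z = (a * z + y * ζ) / (ζ * z) := by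
      rw [← ha, ← hy]; field_simp
    rw [e1, e2, alg3 a y y' ζ z _ _ hm hp hz0 rfl rfl]
    ring
  rw [hval]
  exact hsum

end Pool.Agent.H266R3.Bom
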